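import Mathlib
import Pool.Agent.H234EP.Bwd

set_option autoImplicit false

/-!
The equality problem is undecidable in the variety `M(n)` for every `n ≥ 3` and in the variety
`S(n)` for every `n ≥ 6`; moreover one finite list of relations gives, in each of these varieties,
a finitely presented algebra with undecidable word problem.
-/

namespace Pool.Agent.Results.MP_79b5eb_lc.Undecidable

open Pool.Agent.H234EP Pool.Agent.H109R3.CF

universe u

theorem holdsM_iff (F : Type u) [Field F] [CharZero F] {T : List Tr} (hT : Det T) (p x n : ℕ)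
    (hn : 3 ≤ n) : HoldsM F n (rels T, tgt p x) ↔ HaltsT T (some p) x :=
  ⟨fun h => bwd_Bp F hT p x (h (Bp F T) (Bp_inM F T n hn)),
    fun h A _ _ _ _ _ => fwd F T p x h A⟩

theorem holdsM1_iff (F : Type u) [Field F] [CharZero F] {T : List Tr} (hT : Det T) (p x n : ℕ)
    (hn : 3 ≤ n) : HoldsM1 F n (rels T, tgt p x) ↔ HaltsT T (some p) x :=
  ⟨fun h => bwd_B F hT p x (h (B F T) (B_inM F T n hn)),
    fun h A _ _ _ => fwd F T p x h A⟩

theorem holdsS_iff (F : Type u) [Field F] {T : List Tr} (hT : Det T) (p x n : ℕ)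
    (hn : 6 ≤ n) : HoldsS F n (rels T, tgt p x) ↔ HaltsT T (some p) x :=
  ⟨fun h => bwd_Bp F hT p x (h (Bp F T) (Bp_inS F T n hn)),
    fun h A _ _ _ _ _ => fwd F T p x h A⟩

theorem tgt_computable (p : ℕ) {N : ℕ → ℕ} (hN : Computable N) :
    Computable fun k => tgt p (N k) := by
  have h1 : Primrec fun m : ℕ =>
      [((1 : ℚ), (0 : ℕ), (List.range m).map (fun _ => 2) ++ [4 + 2 * p, 1])] := by
    have h2 : Primrec fun m : ℕ => (List.range m).map (fun _ => 2) :=
      Primrec.list_map Primrec.list_range (Primrec.const 2).to₂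
    have h3 : Primrec fun m : ℕ => (List.range m).map (fun _ => 2) ++ [4 + 2 * p, 1] :=
      Primrec.list_append.comp h2 (Primrec.const _)
    exact Primrec.list_cons.comp
      (Primrec.pair (Primrec.const 1) (Primrec.pair (Primrec.const 0) h3)) (Primrec.const [])
  refine (h1.to_comp.comp hN).of_eq ?_
  intro k
  simp [tgt, mon, cfg, cd]

theorem undec {T : List Tr} {p : ℕ} {N : ℕ → ℕ} (hN : Computable N)
    (hu : ¬ ComputablePred fun n => HaltsT T (some p) (N n)) (K : QuasiId → Prop)
    (hK : ∀ x, K (rels T, tgt p x) ↔ HaltsT T (some p) x) :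
    ¬ ComputablePred K ∧ ¬ ComputablePred fun u => K (rels T, u) := by
  have h2 : ¬ ComputablePred fun u => K (rels T, u) := by
    intro h
    apply hu
    refine ComputablePred.computable_of_manyOneReducible ?_ h
    exact ⟨fun k => tgt p (N k), tgt_computable p hN, fun k => (hK (N k)).symm⟩
  refine ⟨fun h => h2 ?_, h2⟩
  refine ComputablePred.computable_of_manyOneReducible ?_ h
  exact ⟨fun u => (rels T, u), Computable.pair (Computable.const _) Computable.id, fun _ => Iff.rfl⟩

theorem result (F : Type u) [Field F] [CharZero F] :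
    (∀ n, 3 ≤ n → ¬ ComputablePred (HoldsM F n)) ∧
    (∀ n, 6 ≤ n → ¬ ComputablePred (HoldsS F n)) ∧
    ∃ rel : List (NCPoly ℚ),
      (∀ n, 3 ≤ n → ¬ ComputablePred fun u : NCPoly ℚ => HoldsM F n (rel, u)) ∧
      (∀ n, 3 ≤ n → ¬ ComputablePred fun u : NCPoly ℚ => HoldsM1 F n (rel, u)) ∧
      (∀ n, 6 ≤ n → ¬ ComputablePred fun u : NCPoly ℚ => HoldsS F n (rel, u)) := by
  obtain ⟨T, p, N, hT, hN, hu⟩ := exists_det
  have h1 := fun n hn => undec hN hu (HoldsM F n) fun x => holdsM_iff F hT p x n hn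
  have h2 := fun n hn => undec hN hu (HoldsM1 F n) fun x => holdsM1_iff F hT p x n hn
  have h3 := fun n hn => undec hN hu (HoldsS F n) fun x => holdsS_iff F hT p x n hn
  exact ⟨fun n hn => (h1 n hn).1, fun n hn => (h3 n hn).1, rels T, fun n hn => (h1 n hn).2,
    fun n hn => (h2 n hn).2, fun n hn => (h3 n hn).2⟩

end Pool.Agent.Results.MP_79b5eb_lc.Undecidable
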